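import Pool.Agent.Q63.LR.E2

/-!
# Project LR, job E1: the identity rows and columns may be assumed to be exact
-/

set_option autoImplicit false

namespace Pool.Agent.Q63.LR

open Finset Pool.Agent.Q230.LR

theorem dot_eq (u v : Fin 3 → ℝ) : dot u v = dotProduct u v := by
  unfold dot dotProduct
  rw [Fin.sum_univ_three]

/-- change of the basis -/
theorem basis_change (U V : ℕ → Fin 3 → ℝ) (R : ℝ) (hR : 0 < R)
    (hd : ∀ l : Fin 3, ∑ l' ∈ Finset.univ.erase l, |dot (U (2 * l)) (V (2 * l'))| <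
      |dot (U (2 * l)) (V (2 * l))|) :
    ∃ U1 V1 : ℕ → Fin 3 → ℝ, (∀ i j, dot (U1 i) (V1 j) = dot (U i) (V j)) ∧
      ∀ l k : Fin 3, U1 (2 * l) k = if l = k then R else 0 := by
  set A : Matrix (Fin 3) (Fin 3) ℝ := fun l k => U (2 * l) k with hA
  set B : Matrix (Fin 3) (Fin 3) ℝ := fun k l => V (2 * l) k with hB
  have hG : ∀ l l' : Fin 3, (A * B) l l' = dot (U (2 * l)) (V (2 * l')) := by
    intro l l'
    rw [Matrix.mul_apply, Fin.sum_univ_three]
    rfl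
  have hdet : (A * B).det ≠ 0 := by
    apply det_ne_zero_of_sum_row_lt_diag
    intro l
    simp only [Real.norm_eq_abs, hG]
    exact hd l
  rw [Matrix.det_mul] at hdet
  have hdA : IsUnit A.det := isUnit_iff_ne_zero.2 (left_ne_zero_of_mul hdet)
  refine ⟨fun i => R • Matrix.vecMul (U i) A⁻¹, fun j => R⁻¹ • Matrix.mulVec A (V j), ?_, ?_⟩
  · intro i j
    rw [dot_eq, dot_eq, smul_dotProduct, dotProduct_smul, smul_eq_mul, smul_eq_mul, ← mul_assoc,
      mul_inv_cancel₀ hR.ne', one_mul, ← Matrix.dotProduct_mulVec, Matrix.mulVec_mulVec,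
      Matrix.nonsing_inv_mul A hdA, Matrix.one_mulVec]
  · intro l k
    have h1 : Matrix.vecMul (U (2 * l)) A⁻¹ k = (A * A⁻¹) l k := by
      rw [Matrix.mul_apply]
      rfl
    show R * Matrix.vecMul (U (2 * l)) A⁻¹ k = _
    rw [h1, Matrix.mul_nonsing_inv A hdA, Matrix.one_apply]
    split_ifs <;> simp

/-- the sum of the absolute values of the coordinates -/
noncomputable def n1 (v : Fin 3 → ℝ) : ℝ := ∑ l : Fin 3, |v l|

theorem n1_nonneg (v : Fin 3 → ℝ) : 0 ≤ n1 v := sum_nonneg fun _ _ => abs_nonneg _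

theorem dot_n1 (u v : Fin 3 → ℝ) : |dot u v| ≤ n1 u * n1 v := dot_l1 u v

/-- the exact vectors -/
noncomputable def ev (R : ℝ) (i : ℕ) : Fin 3 → ℝ := fun l => if i / 2 = (l : ℕ) then R else 0

theorem dot_ev_left (R : ℝ) (l : Fin 3) (v : Fin 3 → ℝ) : dot (ev R (2 * l)) v = R * v l := by
  fin_cases l <;> simp [dot, ev]

theorem dot_ev_right (R : ℝ) (l : Fin 3) (v : Fin 3 → ℝ) : dot v (ev R (2 * l)) = R * v l := by
  rw [dot_comm', dot_ev_left]

theorem dot_ev_ev (R : ℝ) {i j : ℕ} (hi : i < 6) (hj : j < 6) :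
    dot (ev R i) (ev R j) = if i / 2 = j / 2 then R ^ 2 else 0 := by
  interval_cases i <;> interval_cases j <;> simp [dot, ev, pow_two]

theorem ent1_bound {R κ δ : ℝ} (hR : 0 ≤ R) (hκ : 0 ≤ κ) (hκ' : κ ≤ 1 / 8) (hδ : 0 ≤ δ) (hδ' : δ ≤ 1)
    (rc cc kd : ℕ → ℕ → ℕ) (i j : ℕ) (h : (i < 6 ∧ 6 ≤ j) ∨ (6 ≤ i ∧ j < 6)) :
    |ent1 R κ δ rc cc kd i j| ≤ R := by
  have h1 : |R * κ| ≤ R := by
    rw [abs_of_nonneg (by positivity)]
    nlinarith
  have h2 : ∀ c, |R * spv κ δ c| ≤ R := by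
    intro c
    rw [abs_mul, abs_of_nonneg hR]
    have := spv_le hκ hκ' hδ hδ' c
    nlinarith [abs_nonneg (spv κ δ c)]
  rcases h with ⟨hi, hj⟩ | ⟨hi, hj⟩
  · unfold ent1
    rw [if_pos hi, if_neg (by omega)]
    split_ifs
    · rw [abs_neg]; exact h1
    · exact h1
    · exact h2 _
  · unfold ent1
    rw [if_neg (by omega), if_pos hj]
    split_ifs
    · rw [abs_neg]; exact h1
    · exact h1
    · exact h2 _

theorem ent1_small {R κ δ : ℝ} (rc cc kd : ℕ → ℕ → ℕ) {i j : ℕ} (hi : i < 6) (hj : j < 6) :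
    ent1 R κ δ rc cc kd i j = if i / 2 = j / 2 then R ^ 2 else 0 := by
  unfold ent1
  rw [if_pos hi, if_pos hj]

theorem sum_blocks (f : ℕ → ℝ) (m : ℕ) :
    ∑ i ∈ Ico 6 (6 + 2 * m), f i = ∑ a ∈ Finset.range m, ∑ s ∈ Finset.range 2, f (6 + 2 * a + s) := by
  induction m with
  | zero => simp
  | succ m ih =>
    rw [sum_range_succ, ← ih, show 6 + 2 * (m + 1) = (6 + 2 * m + 1) + 1 by ring,
      Finset.sum_Ico_succ_top (by omega), Finset.sum_Ico_succ_top (by omega)]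
    simp [sum_range_succ]
    ring

theorem split6 (f : ℕ → ℝ) (m : ℕ) :
    ∑ i ∈ Finset.range (6 + 2 * m), f i = ∑ i ∈ Finset.range 6, f i + ∑ i ∈ Ico 6 (6 + 2 * m), f i := by
  rw [Finset.range_eq_Ico, Finset.range_eq_Ico, Finset.sum_Ico_consecutive f (by omega) (by omega)]

end Pool.Agent.Q63.LR
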