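import Pool.Agent.Q63.LR.E1

/-!
# Project LR, job E1: the main estimates
-/

set_option autoImplicit false

namespace Pool.Agent.Q63.LR

open Finset Pool.Agent.Q230.LR

theorem range6 (f : ℕ → ℝ) : ∑ i ∈ Finset.range 6, f i = f 0 + f 1 + f 2 + f 3 + f 4 + f 5 := by
  simp [sum_range_succ]

theorem even6 (f : ℕ → ℝ) : ∑ l : Fin 3, f (2 * (l : ℕ)) = f 0 + f 2 + f 4 := by
  rw [Fin.sum_univ_three]
  rfl

theorem even_le (f : ℕ → ℝ) (hf : ∀ i, 0 ≤ f i) :
    ∑ l : Fin 3, f (2 * (l : ℕ)) ≤ ∑ i ∈ Finset.range 6, f i := by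
  rw [range6, even6]
  linarith [hf 1, hf 3, hf 5]

theorem n1_ev (R : ℝ) (hR : 0 ≤ R) {i : ℕ} (hi : i < 6) : n1 (ev R i) = R := by
  unfold n1 ev
  interval_cases i <;> simp [abs_of_nonneg hR, Fin.sum_univ_three]

theorem e1_norm (m n : ℕ) (R κ δ : ℝ) (rc cc kd : ℕ → ℕ → ℕ) (U V : ℕ → Fin 3 → ℝ)
    (hR : (10 : ℝ) ^ 4 * ((m : ℝ) + n + 1) ^ 2 ≤ R) (hκ : 0 ≤ κ) (hκ' : κ ≤ 1 / 8) (hδ : 0 ≤ δ) (hδ' : δ ≤ 1)
    (hT : tot m n R κ δ rc cc kd U V ≤ 2 * R * ((m : ℝ) + n + 1))
    (hU : ∀ l : Fin 3, U (2 * l) = ev R (2 * l)) :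
    ∃ U' V' : ℕ → Fin 3 → ℝ, Exact R U' ∧ Exact R V' ∧
    tot m n R κ δ rc cc kd U' V' ≤ tot m n R κ δ rc cc kd U V ∧
    ∑ a ∈ Finset.range m, ∑ s ∈ Finset.range 2, ∑ l : Fin 3, |U' (6 + 2 * a + s) l| ≤
      100 * ((m : ℝ) + n + 1) ∧
    ∑ b ∈ Finset.range n, ∑ t ∈ Finset.range 2, ∑ l : Fin 3, |V' (6 + 2 * b + t) l| ≤
      100 * ((m : ℝ) + n + 1) := by
  have hm0 : (0 : ℝ) ≤ m := Nat.cast_nonneg m
  have hn0 : (0 : ℝ) ≤ n := Nat.cast_nonneg n
  set μ : ℝ := (m : ℝ) + n + 1 with hμd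
  have hμ1 : 1 ≤ μ := by linarith
  have hR1 : 10 ^ 4 * μ ≤ R := by nlinarith
  have hR0 : 0 < R := by linarith
  set c : ℕ → ℕ → ℝ := fun i j => |ent1 R κ δ rc cc kd i j - dot (U i) (V j)| with hc
  have hc0 : ∀ i j, 0 ≤ c i j := fun i j => abs_nonneg _
  set X : ℝ := ∑ i ∈ Finset.range 6, ∑ j ∈ Finset.range 6, c i j with hX
  set T12 : ℝ := ∑ i ∈ Finset.range 6, ∑ j ∈ Ico 6 (6 + 2 * n), c i j with hT12
  set T21 : ℝ := ∑ i ∈ Ico 6 (6 + 2 * m), ∑ j ∈ Finset.range 6, c i j with hT21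
  set T22 : ℝ := ∑ i ∈ Ico 6 (6 + 2 * m), ∑ j ∈ Ico 6 (6 + 2 * n), c i j with hT22
  have htot : tot m n R κ δ rc cc kd U V = X + T12 + T21 + T22 := by
    unfold tot
    rw [split6]
    have h1 : ∀ i, ∑ j ∈ Finset.range (6 + 2 * n), |ent1 R κ δ rc cc kd i j - dot (U i) (V j)| =
        ∑ j ∈ Finset.range 6, c i j + ∑ j ∈ Ico 6 (6 + 2 * n), c i j := fun i => split6 _ n
    simp only [h1, sum_add_distrib]
    rw [hX, hT12, hT21, hT22]
    ring
  have hX0 : 0 ≤ X := sum_nonneg fun i _ => sum_nonneg fun j _ => hc0 i j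
  have hT120 : 0 ≤ T12 := sum_nonneg fun i _ => sum_nonneg fun j _ => hc0 i j
  have hT210 : 0 ≤ T21 := sum_nonneg fun i _ => sum_nonneg fun j _ => hc0 i j
  have hT220 : 0 ≤ T22 := sum_nonneg fun i _ => sum_nonneg fun j _ => hc0 i j
  rw [htot] at hT
  have hXR : X ≤ R ^ 2 / 5000 := by
    have : X ≤ 2 * R * μ := by linarith
    nlinarith
  -- the vectors `V j`, `j < 6`
  set y : ℕ → ℝ := fun j => n1 (fun l => V j l - ev R j l) with hy
  have hy0 : ∀ j, 0 ≤ y j := fun j => n1_nonneg _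
  have hyc : ∀ j, j < 6 → R * y j = ∑ l : Fin 3, c (2 * (l : ℕ)) j := by
    intro j hj
    simp only [hy, n1]
    rw [mul_sum]
    refine sum_congr rfl fun l _ => ?_
    simp only [hc]
    rw [ent1_small rc cc kd (by omega) hj, hU l, dot_ev_left]
    have h1 : (if 2 * (l : ℕ) / 2 = j / 2 then R ^ 2 else 0) = R * ev R j l := by
      unfold ev
      have h2 : 2 * (l : ℕ) / 2 = l := by omega
      rw [h2]
      by_cases h : j / 2 = (l : ℕ)
      · rw [if_pos h.symm, if_pos h]; ring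
      · rw [if_neg (fun h' => h h'.symm), if_neg h]; ring
    rw [h1, ← mul_sub, abs_mul, abs_of_pos hR0, abs_sub_comm]
  set yy : ℝ := ∑ l : Fin 3, y (2 * (l : ℕ)) with hyy
  have hyy0 : 0 ≤ yy := sum_nonneg fun l _ => hy0 _
  set Y : ℝ := ∑ j ∈ Finset.range 6, y j with hY
  have hY0 : 0 ≤ Y := sum_nonneg fun l _ => hy0 _
  have hYX : R * Y ≤ X := by
    rw [hY, mul_sum, hX, sum_comm]
    refine sum_le_sum fun j hj => ?_
    rw [hyc j (Finset.mem_range.1 hj)]
    exact even_le (fun i => c i j) (fun i => hc0 i j)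
  have hyyY : yy ≤ Y := even_le y hy0
  have hyyR : R * yy ≤ X := le_trans (mul_le_mul_of_nonneg_left hyyY hR0.le) hYX
  have hyy5 : yy ≤ R / 5000 := by
    have : R * yy ≤ R * (R / 5000) := by
      refine hyyR.trans (hXR.trans (le_of_eq ?_))
      ring
    exact le_of_mul_le_mul_left this hR0
  -- the product with the error vectors
  have hdec : ∀ (i : ℕ) (l : Fin 3), |R * U i l - dot (U i) (V (2 * l))| ≤ n1 (U i) * y (2 * (l : ℕ)) := by
    intro i l
    have h1 : R * U i l - dot (U i) (V (2 * l)) = - dot (U i) (fun k => V (2 * l) k - ev R (2 * l) k) := by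
      rw [← dot_ev_right]
      unfold dot
      ring
    rw [h1, abs_neg]
    exact dot_n1 _ _
  -- the vectors `U i`, `i < 6`
  set z : ℕ → ℝ := fun i => n1 (fun l => U i l - ev R i l) with hz
  have hz0 : ∀ i, 0 ≤ z i := fun i => n1_nonneg _
  have hN : ∀ i, i < 6 → n1 (U i) ≤ R + z i := by
    intro i hi
    have h1 : n1 (U i) ≤ n1 (ev R i) + z i := by
      simp only [n1, hz]
      rw [← sum_add_distrib]
      refine sum_le_sum fun l _ => ?_
      have : U i l = ev R i l + (U i l - ev R i l) := by ring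
      calc |U i l| = |ev R i l + (U i l - ev R i l)| := by rw [← this]
        _ ≤ _ := abs_add_le _ _
    rw [n1_ev R hR0.le hi] at h1
    exact h1
  have hzc : ∀ i, i < 6 → R * z i ≤ ∑ l : Fin 3, c i (2 * (l : ℕ)) + n1 (U i) * yy := by
    intro i hi
    simp only [hyy]
    rw [mul_sum, ← sum_add_distrib]
    simp only [hz, n1]
    rw [mul_sum]
    refine sum_le_sum fun l _ => ?_
    have h1 := hdec i l
    have h2 : R * |U i l - ev R i l| = |(R * U i l - dot (U i) (V (2 * l))) -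
        ((if i / 2 = 2 * (l : ℕ) / 2 then R ^ 2 else 0) - dot (U i) (V (2 * l)))| := by
      have h3 : (if i / 2 = 2 * (l : ℕ) / 2 then R ^ 2 else 0) = R * ev R i l := by
        unfold ev
        have h2 : 2 * (l : ℕ) / 2 = l := by omega
        rw [h2]
        split_ifs <;> ring
      rw [h3]
      have h4 : (R * U i l - dot (U i) (V (2 * l))) - (R * ev R i l - dot (U i) (V (2 * l))) =
          R * (U i l - ev R i l) := by ring
      rw [h4, abs_mul, abs_of_pos hR0]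
    rw [h2]
    have h5 : c i (2 * (l : ℕ)) = |(if i / 2 = 2 * (l : ℕ) / 2 then R ^ 2 else 0) - dot (U i) (V (2 * l))| := by
      simp only [hc]
      rw [ent1_small rc cc kd hi (by omega)]
    rw [h5]
    have h6 := abs_sub (R * U i l - dot (U i) (V (2 * l)))
      ((if i / 2 = 2 * (l : ℕ) / 2 then R ^ 2 else 0) - dot (U i) (V (2 * l)))
    simp only [n1] at h1
    linarith
  have hcX : ∀ i, i < 6 → ∑ l : Fin 3, c i (2 * (l : ℕ)) ≤ X := by
    intro i hi
    refine (even_le (fun j => c i j) (fun j => hc0 i j)).trans ?_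
    exact single_le_sum (f := fun i => ∑ j ∈ Finset.range 6, c i j)
      (fun i _ => sum_nonneg fun j _ => hc0 i j) (Finset.mem_range.2 hi)
  have hzR : ∀ i, i < 6 → z i ≤ R := by
    intro i hi
    have h1 := hzc i hi
    have h2 := hN i hi
    have h3 := hcX i hi
    have h4 : n1 (U i) * yy ≤ (R + z i) * yy := mul_le_mul_of_nonneg_right h2 hyy0
    have h5 : (R + z i) * yy ≤ X + z i * (R / 5000) := by
      have : z i * yy ≤ z i * (R / 5000) := mul_le_mul_of_nonneg_left hyy5 (hz0 i)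
      linarith
    have h6 : R * z i * (4999 / 5000) ≤ 2 * R ^ 2 / 5000 := by linarith
    have h7 : R * z i ≤ R * R := by nlinarith
    exact le_of_mul_le_mul_left h7 hR0
  have hz2 : ∀ i, i < 6 → R * z i ≤ ∑ l : Fin 3, c i (2 * (l : ℕ)) + 2 * X := by
    intro i hi
    have h1 := hzc i hi
    have h2 := hN i hi
    have h3 := hzR i hi
    have h4 : n1 (U i) * yy ≤ (2 * R) * yy := mul_le_mul_of_nonneg_right (by linarith) hyy0
    linarith
  have hze : ∀ l : Fin 3, z (2 * (l : ℕ)) = 0 := by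
    intro l
    simp only [hz, hU l]
    simp [n1]
  set Z : ℝ := ∑ i ∈ Finset.range 6, z i with hZ
  have hZ0 : 0 ≤ Z := sum_nonneg fun i _ => hz0 i
  have hZX : R * Z ≤ 7 * X := by
    have e0 := hze 0
    have e1 := hze 1
    have e2 := hze 2
    simp only [Fin.val_zero, mul_zero, Fin.val_one, mul_one, Fin.val_two] at e0 e1 e2
    norm_num at e2
    rw [hZ, range6, e0, e1, e2]
    have h1 := hz2 1 (by norm_num)
    have h3 := hz2 3 (by norm_num)
    have h5 := hz2 5 (by norm_num)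
    have hXe : X = ∑ j ∈ Finset.range 6, c 0 j + ∑ j ∈ Finset.range 6, c 1 j + ∑ j ∈ Finset.range 6, c 2 j +
        ∑ j ∈ Finset.range 6, c 3 j + ∑ j ∈ Finset.range 6, c 4 j + ∑ j ∈ Finset.range 6, c 5 j := by
      rw [hX, range6]
    have g1 := even_le (fun j => c 1 j) (fun j => hc0 1 j)
    have g3 := even_le (fun j => c 3 j) (fun j => hc0 3 j)
    have g5 := even_le (fun j => c 5 j) (fun j => hc0 5 j)
    have g0 : 0 ≤ ∑ j ∈ Finset.range 6, c 0 j := sum_nonneg fun j _ => hc0 0 j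
    have g2 : 0 ≤ ∑ j ∈ Finset.range 6, c 2 j := sum_nonneg fun j _ => hc0 2 j
    have g4 : 0 ≤ ∑ j ∈ Finset.range 6, c 4 j := sum_nonneg fun j _ => hc0 4 j
    linarith
  -- the normal columns
  set SV : ℝ := ∑ j ∈ Ico 6 (6 + 2 * n), n1 (V j) with hSV
  have hSV0 : 0 ≤ SV := sum_nonneg fun j _ => n1_nonneg _
  have hSVb : SV ≤ 8 * μ := by
    have h1 : R * SV ≤ ∑ j ∈ Ico 6 (6 + 2 * n), (3 * R + ∑ i ∈ Finset.range 6, c i j) := by
      rw [hSV, mul_sum]
      refine sum_le_sum fun j hj => ?_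
      rw [mem_Ico] at hj
      refine le_trans ?_ (add_le_add le_rfl (even_le (fun i => c i j) (fun i => hc0 i j)))
      have h2 : (3 : ℝ) * R = ∑ l : Fin 3, R := by
        simp
      rw [h2, ← sum_add_distrib]
      simp only [n1]
      rw [mul_sum]
      refine sum_le_sum fun l _ => ?_
      have h3 : R * V j l = ent1 R κ δ rc cc kd (2 * l) j -
          (ent1 R κ δ rc cc kd (2 * l) j - dot (U (2 * l)) (V j)) := by
        rw [hU l, dot_ev_left]
        ring
      have h4 : R * |V j l| = |R * V j l| := by rw [abs_mul, abs_of_pos hR0]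
      rw [h4, h3]
      have h5 := ent1_bound hR0.le hκ hκ' hδ hδ' rc cc kd (2 * l) j (Or.inl ⟨by omega, hj.1⟩)
      exact (abs_sub _ _).trans (add_le_add h5 le_rfl)
    rw [sum_add_distrib, sum_const, Nat.card_Ico, nsmul_eq_mul, sum_comm (s := Ico 6 (6 + 2 * n))] at h1
    have h2 : (((6 + 2 * n - 6 : ℕ)) : ℝ) = 2 * n := by
      rw [Nat.add_sub_cancel_left]
      push_cast
      ring
    rw [h2] at h1
    have h3 : R * SV ≤ R * (8 * μ) := by
      have h4 : (2 * (n : ℝ)) * (3 * R) ≤ 6 * R * μ := by nlinarith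
      have h5 : ∑ i ∈ Finset.range 6, ∑ j ∈ Ico 6 (6 + 2 * n), c i j = T12 := rfl
      rw [h5] at h1
      linarith
    exact le_of_mul_le_mul_left h3 hR0
  -- the normal rows
  set SU : ℝ := ∑ i ∈ Ico 6 (6 + 2 * m), n1 (U i) with hSU
  have hSU0 : 0 ≤ SU := sum_nonneg fun j _ => n1_nonneg _
  have hSUb : SU ≤ 9 * μ := by
    have h1 : R * SU ≤ ∑ i ∈ Ico 6 (6 + 2 * m), (3 * R + ∑ j ∈ Finset.range 6, c i j + n1 (U i) * yy) := by
      rw [hSU, mul_sum]
      refine sum_le_sum fun i hi => ?_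
      rw [mem_Ico] at hi
      refine le_trans ?_ (add_le_add (add_le_add le_rfl (even_le (fun j => c i j) (fun j => hc0 i j))) le_rfl)
      have h2 : (3 : ℝ) * R = ∑ l : Fin 3, R := by
        simp
      simp only [hyy]
      rw [h2, mul_sum, ← sum_add_distrib, ← sum_add_distrib]
      have h2' : R * n1 (U i) = ∑ l : Fin 3, R * |U i l| := by
        simp only [n1]
        rw [mul_sum]
      rw [h2']
      refine sum_le_sum fun l _ => ?_
      have h3 : R * U i l = ent1 R κ δ rc cc kd i (2 * l) -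
          (ent1 R κ δ rc cc kd i (2 * l) - dot (U i) (V (2 * l))) + (R * U i l - dot (U i) (V (2 * l))) := by
        ring
      have h4 : R * |U i l| = |R * U i l| := by rw [abs_mul, abs_of_pos hR0]
      rw [h4, h3]
      have h5 := ent1_bound hR0.le hκ hκ' hδ hδ' rc cc kd i (2 * l) (Or.inr ⟨hi.1, by omega⟩)
      refine (abs_add_le _ _).trans (add_le_add ?_ (hdec i l))
      exact (abs_sub _ _).trans (add_le_add h5 le_rfl)
    rw [sum_add_distrib, sum_add_distrib, sum_const, Nat.card_Ico, nsmul_eq_mul, ← sum_mul] at h1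
    have h2 : (((6 + 2 * m - 6 : ℕ)) : ℝ) = 2 * m := by
      rw [Nat.add_sub_cancel_left]
      push_cast
      ring
    rw [h2] at h1
    have h5 : ∑ i ∈ Ico 6 (6 + 2 * m), ∑ j ∈ Finset.range 6, c i j = T21 := rfl
    have h6 : ∑ i ∈ Ico 6 (6 + 2 * m), n1 (U i) = SU := rfl
    rw [h5, h6] at h1
    have h7 : SU * yy ≤ SU * (R / 5000) := mul_le_mul_of_nonneg_left hyy5 hSU0
    have h4 : (2 * (m : ℝ)) * (3 * R) ≤ 6 * R * μ := by nlinarith
    have h8 : R * SU ≤ R * (9 * μ) := by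
      have h9 : R * SU * (4999 / 5000) ≤ 8 * R * μ := by linarith
      nlinarith [mul_nonneg hR0.le hSU0, mul_nonneg hR0.le (by linarith : 0 ≤ μ)]
    exact le_of_mul_le_mul_left h8 hR0
  -- the new vectors
  set U' : ℕ → Fin 3 → ℝ := fun i => if i < 6 then ev R i else U i with hU'
  set V' : ℕ → Fin 3 → ℝ := fun j => if j < 6 then ev R j else V j with hV'
  have hU'1 : ∀ i, i < 6 → U' i = ev R i := fun i hi => by simp only [hU', if_pos hi]
  have hU'2 : ∀ i, 6 ≤ i → U' i = U i := fun i hi => by simp only [hU', if_neg (not_lt.2 hi)]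
  have hV'1 : ∀ i, i < 6 → V' i = ev R i := fun i hi => by simp only [hV', if_pos hi]
  have hV'2 : ∀ i, 6 ≤ i → V' i = V i := fun i hi => by simp only [hV', if_neg (not_lt.2 hi)]
  refine ⟨U', V', ?_, ?_, ?_, ?_, ?_⟩
  · intro i hi l
    rw [hU'1 i hi]
    rfl
  · intro i hi l
    rw [hV'1 i hi]
    rfl
  · rw [htot]
    unfold tot
    rw [split6]
    have h1 : ∀ i, ∑ j ∈ Finset.range (6 + 2 * n), |ent1 R κ δ rc cc kd i j - dot (U' i) (V' j)| =
        ∑ j ∈ Finset.range 6, |ent1 R κ δ rc cc kd i j - dot (U' i) (V' j)| +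
        ∑ j ∈ Ico 6 (6 + 2 * n), |ent1 R κ δ rc cc kd i j - dot (U' i) (V' j)| := fun i => split6 _ n
    simp only [h1, sum_add_distrib]
    have e11 : ∑ i ∈ Finset.range 6, ∑ j ∈ Finset.range 6, |ent1 R κ δ rc cc kd i j - dot (U' i) (V' j)| = 0 := by
      apply sum_eq_zero
      intro i hi
      apply sum_eq_zero
      intro j hj
      rw [Finset.mem_range] at hi hj
      rw [hU'1 i hi, hV'1 j hj, ent1_small rc cc kd hi hj, dot_ev_ev R hi hj, sub_self, abs_zero]
    have e12 : ∑ i ∈ Finset.range 6, ∑ j ∈ Ico 6 (6 + 2 * n), |ent1 R κ δ rc cc kd i j - dot (U' i) (V' j)| ≤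
        T12 + Z * SV := by
      rw [hZ, hSV, sum_mul, hT12, ← sum_add_distrib]
      refine sum_le_sum fun i hi => ?_
      rw [mul_sum, ← sum_add_distrib]
      refine sum_le_sum fun j hj => ?_
      rw [Finset.mem_range] at hi
      rw [mem_Ico] at hj
      rw [hU'1 i hi, hV'2 j hj.1]
      have h2 : ent1 R κ δ rc cc kd i j - dot (ev R i) (V j) =
          (ent1 R κ δ rc cc kd i j - dot (U i) (V j)) + dot (fun l => U i l - ev R i l) (V j) := by
        unfold dot
        ring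
      rw [h2]
      exact (abs_add_le _ _).trans (add_le_add le_rfl (dot_n1 _ _))
    have e21 : ∑ i ∈ Ico 6 (6 + 2 * m), ∑ j ∈ Finset.range 6, |ent1 R κ δ rc cc kd i j - dot (U' i) (V' j)| ≤
        T21 + SU * Y := by
      rw [hY, hSU, sum_mul, hT21, ← sum_add_distrib]
      refine sum_le_sum fun i hi => ?_
      rw [mul_sum, ← sum_add_distrib]
      refine sum_le_sum fun j hj => ?_
      rw [Finset.mem_range] at hj
      rw [mem_Ico] at hi
      rw [hU'2 i hi.1, hV'1 j hj]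
      have h2 : ent1 R κ δ rc cc kd i j - dot (U i) (ev R j) =
          (ent1 R κ δ rc cc kd i j - dot (U i) (V j)) + dot (U i) (fun l => V j l - ev R j l) := by
        unfold dot
        ring
      rw [h2]
      exact (abs_add_le _ _).trans (add_le_add le_rfl (dot_n1 _ _))
    have e22 : ∑ i ∈ Ico 6 (6 + 2 * m), ∑ j ∈ Ico 6 (6 + 2 * n),
        |ent1 R κ δ rc cc kd i j - dot (U' i) (V' j)| = T22 := by
      rw [hT22]
      refine sum_congr rfl fun i hi => sum_congr rfl fun j hj => ?_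
      rw [mem_Ico] at hi hj
      rw [hU'2 i hi.1, hV'2 j hj.1]
    have hfin : Z * SV + SU * Y ≤ X := by
      have h2 : R * (Z * SV + SU * Y) ≤ R * X := by
        have h3 : R * Z * SV ≤ 7 * X * (8 * μ) := mul_le_mul hZX hSVb hSV0 (by positivity)
        have h4 : SU * (R * Y) ≤ 9 * μ * X := mul_le_mul hSUb hYX (by positivity) (by positivity)
        have h5 : 65 * μ * X ≤ R * X := mul_le_mul_of_nonneg_right (by linarith) hX0
        nlinarith
      exact le_of_mul_le_mul_left h2 hR0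
    rw [e11, e22]
    linarith
  · have h1 := sum_blocks (fun i => n1 (U' i)) m
    have h2 : ∑ a ∈ Finset.range m, ∑ s ∈ Finset.range 2, ∑ l : Fin 3, |U' (6 + 2 * a + s) l| =
        ∑ i ∈ Ico 6 (6 + 2 * m), n1 (U' i) := by
      rw [h1]
      rfl
    rw [h2]
    have h3 : ∑ i ∈ Ico 6 (6 + 2 * m), n1 (U' i) = SU := by
      refine sum_congr rfl fun i hi => ?_
      rw [hU'2 i (mem_Ico.1 hi).1]
    rw [h3]
    linarith
  · have h1 := sum_blocks (fun i => n1 (V' i)) n
    have h2 : ∑ b ∈ Finset.range n, ∑ t ∈ Finset.range 2, ∑ l : Fin 3, |V' (6 + 2 * b + t) l| =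
        ∑ i ∈ Ico 6 (6 + 2 * n), n1 (V' i) := by
      rw [h1]
      rfl
    rw [h2]
    have h3 : ∑ i ∈ Ico 6 (6 + 2 * n), n1 (V' i) = SV := by
      refine sum_congr rfl fun i hi => ?_
      rw [hV'2 i (mem_Ico.1 hi).1]
    rw [h3]
    linarith

theorem e1 : S_E1 := by
  intro m n R κ δ rc cc kd U V hR hκ hκ' hδ hδ' hT
  have hm0 : (0 : ℝ) ≤ m := Nat.cast_nonneg m
  have hn0 : (0 : ℝ) ≤ n := Nat.cast_nonneg n
  set μ : ℝ := (m : ℝ) + n + 1 with hμd
  have hμ1 : 1 ≤ μ := by linarith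
  have hR1 : 10 ^ 4 * μ ≤ R := by nlinarith
  have hR0 : 0 < R := by linarith
  have hx : ∀ l l' : Fin 3, |ent1 R κ δ rc cc kd (2 * l) (2 * l') - dot (U (2 * l)) (V (2 * l'))| ≤
      2 * R * μ := by
    intro l l'
    refine le_trans ?_ hT
    unfold tot
    refine le_trans ?_ (single_le_sum (f := fun i => ∑ j ∈ Finset.range (6 + 2 * n),
      |ent1 R κ δ rc cc kd i j - dot (U i) (V j)|) (fun i _ => sum_nonneg fun j _ => abs_nonneg _)
      (Finset.mem_range.2 (show 2 * (l : ℕ) < 6 + 2 * m by omega)))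
    exact single_le_sum (f := fun j => |ent1 R κ δ rc cc kd (2 * l) j - dot (U (2 * l)) (V j)|)
      (fun j _ => abs_nonneg _) (Finset.mem_range.2 (show 2 * (l' : ℕ) < 6 + 2 * n by omega))
  have hent : ∀ l l' : Fin 3, ent1 R κ δ rc cc kd (2 * l) (2 * l') = if l = l' then R ^ 2 else 0 := by
    intro l l'
    rw [ent1_small rc cc kd (by omega) (by omega)]
    have h1 : (2 * (l : ℕ) / 2 = 2 * (l' : ℕ) / 2) ↔ l = l' := by
      rw [Fin.ext_iff]
      omega
    by_cases h : l = l'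
    · rw [if_pos (h1.2 h), if_pos h]
    · rw [if_neg (fun h' => h (h1.1 h')), if_neg h]
  have hd : ∀ l : Fin 3, ∑ l' ∈ Finset.univ.erase l, |dot (U (2 * l)) (V (2 * l'))| <
      |dot (U (2 * l)) (V (2 * l))| := by
    intro l
    have h1 : ∑ l' ∈ Finset.univ.erase l, |dot (U (2 * l)) (V (2 * l'))| ≤
        ∑ l' ∈ Finset.univ.erase l, 2 * R * μ := by
      refine sum_le_sum fun l' hl' => ?_
      have h2 := hx l l'
      rw [hent, if_neg (Finset.ne_of_mem_erase hl').symm, zero_sub, abs_neg] at h2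
      exact h2
    have h3 : ∑ l' ∈ Finset.univ.erase l, 2 * R * μ = 4 * R * μ := by
      rw [sum_const, Finset.card_erase_of_mem (Finset.mem_univ _), Finset.card_univ, Fintype.card_fin]
      simp
      ring
    have h4 := hx l l
    rw [hent, if_pos rfl] at h4
    have h5 := (abs_le.1 h4).2
    have h6 := le_abs_self (dot (U (2 * l)) (V (2 * l)))
    have h7 : 6 * R * μ < R ^ 2 := by nlinarith
    linarith
  obtain ⟨U1, V1, hdot, hU1⟩ := basis_change U V R hR0 hd
  have htot : tot m n R κ δ rc cc kd U V = tot m n R κ δ rc cc kd U1 V1 := by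
    unfold tot
    simp only [hdot]
  rw [htot] at hT ⊢
  apply e1_norm m n R κ δ rc cc kd U1 V1 hR hκ hκ' hδ hδ' hT
  intro l
  funext k
  rw [hU1 l k]
  unfold ev
  have h2 : 2 * (l : ℕ) / 2 = l := by omega
  rw [h2]
  by_cases h : l = k
  · rw [if_pos h, if_pos (by rw [h])]
  · rw [if_neg h, if_neg (fun h' => h (Fin.ext h'))]

end Pool.Agent.Q63.LR
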