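import Pool.Agent.Q63.LR.E3

/-!
# Project LR, job E2: the projection to the boxes
-/

set_option autoImplicit false

namespace Pool.Agent.Q63.LR

open Finset Pool.Agent.Q230.LR

/-- the projection -/
noncomputable def prj (κ δ : ℝ) (c : ℕ) (x : ℝ) : ℝ := if c = 0 then max (-κ) (min κ x) else spv κ δ c

theorem prj_box {κ δ : ℝ} (hκ : 0 ≤ κ) (c : ℕ) (x : ℝ) : InBox κ δ κ c (prj κ δ c x) := by
  unfold InBox prj
  split_ifs
  · rw [abs_le]
    constructor
    · exact le_max_left _ _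
    · exact max_le (by linarith) (min_le_left _ _)
  · rfl

theorem pen_prj {R κ δ : ℝ} (hR : 0 ≤ R) (hκ : 0 ≤ κ) (c : ℕ) (x : ℝ) :
    pen R κ δ c x = pen R κ δ c (prj κ δ c x) + 2 * R * |x - prj κ δ c x| := by
  by_cases hc : c = 0
  · rw [pen_box hR (prj_box hκ c x)]
    unfold pen prj
    simp only [if_pos hc]
    rcases le_total x (-κ) with h | h
    · have h1 : max (-κ) (min κ x) = -κ := by
        apply max_eq_left
        exact (min_le_right _ _).trans h
      rw [h1, abs_of_nonneg (by nlinarith), abs_of_nonneg (by nlinarith), abs_of_nonpos (by linarith)]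
      ring
    · rcases le_total x κ with h' | h'
      · have h1 : max (-κ) (min κ x) = x := by
          rw [min_eq_right h', max_eq_right h]
        rw [h1, abs_of_nonpos (by nlinarith), abs_of_nonneg (by nlinarith), sub_self, abs_zero]
        ring
      · have h1 : max (-κ) (min κ x) = κ := by
          rw [min_eq_left h', max_eq_right (by linarith)]
        rw [h1, abs_of_nonpos (by nlinarith), abs_of_nonpos (by nlinarith), abs_of_nonneg (by linarith)]
        ring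
  · unfold pen prj
    simp only [if_neg hc]
    rw [sub_self, abs_zero, ← mul_sub, abs_mul, abs_of_nonneg hR, abs_sub_comm]
    ring

theorem dot_l1 (u v : Fin 3 → ℝ) : |dot u v| ≤ (∑ l : Fin 3, |u l|) * ∑ l : Fin 3, |v l| := by
  unfold dot
  rw [Fin.sum_univ_three, Fin.sum_univ_three]
  have h0 := abs_nonneg (u 0)
  have h1 := abs_nonneg (u 1)
  have h2 := abs_nonneg (u 2)
  have k0 := abs_nonneg (v 0)
  have k1 := abs_nonneg (v 1)
  have k2 := abs_nonneg (v 2)
  calc |u 0 * v 0 + u 1 * v 1 + u 2 * v 2| ≤ |u 0 * v 0 + u 1 * v 1| + |u 2 * v 2| := abs_add_le _ _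
    _ ≤ |u 0 * v 0| + |u 1 * v 1| + |u 2 * v 2| := by linarith [abs_add_le (u 0 * v 0) (u 1 * v 1)]
    _ = |u 0| * |v 0| + |u 1| * |v 1| + |u 2| * |v 2| := by rw [abs_mul, abs_mul, abs_mul]
    _ ≤ _ := by nlinarith [mul_nonneg h0 k1, mul_nonneg h0 k2, mul_nonneg h1 k0, mul_nonneg h1 k2,
        mul_nonneg h2 k0, mul_nonneg h2 k1]

theorem dot_sub (u u' v : Fin 3 → ℝ) : dot u v - dot u' v = dot (fun l => u l - u' l) v := by
  unfold dot
  ring

theorem dot_comm' (u v : Fin 3 → ℝ) : dot u v = dot v u := by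
  unfold dot
  ring

theorem cost_swap (m n : ℕ) (R κ δ : ℝ) (rc cc kd : ℕ → ℕ → ℕ) (r w : ℕ → ℕ → Fin 3 → ℝ) :
    costV m n R κ δ rc cc kd r w = costV n m R κ δ cc rc (fun b a => kd a b) w r := by
  unfold costV
  have h1 : ∑ a ∈ Finset.range m, ∑ b ∈ Finset.range n, ∑ s ∈ Finset.range 2, ∑ t ∈ Finset.range 2,
      |cen (kd a b) s t - dot (r a s) (w b t)| =
      ∑ a ∈ Finset.range n, ∑ b ∈ Finset.range m, ∑ s ∈ Finset.range 2, ∑ t ∈ Finset.range 2,
      |cen (kd b a) s t - dot (w a s) (r b t)| := by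
    rw [sum_comm]
    refine sum_congr rfl fun b _ => sum_congr rfl fun a _ => ?_
    rw [sum_comm]
    refine sum_congr rfl fun t _ => sum_congr rfl fun s _ => ?_
    rw [dot_comm']
    have : cen (kd a b) s t = cen (kd a b) t s := by
      unfold cen
      by_cases h : s = t
      · rw [h]
      · have h' : ¬ t = s := fun h' => h h'.symm
        simp only [h, h', if_false]
    rw [this]
  rw [h1]
  ring

theorem rows_proj (m n : ℕ) (R κ δ : ℝ) (rc cc kd : ℕ → ℕ → ℕ) (r w : ℕ → ℕ → Fin 3 → ℝ)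
    (hR : 0 ≤ R) (hκ : 0 ≤ κ)
    (hw : ∑ b ∈ Finset.range n, ∑ t ∈ Finset.range 2, ∑ l : Fin 3, |w b t l| ≤ 2 * R) :
    costV m n R κ δ rc cc kd (fun a s l => prj κ δ (rc a l) (r a s l)) w ≤ costV m n R κ δ rc cc kd r w := by
  set r' : ℕ → ℕ → Fin 3 → ℝ := fun a s l => prj κ δ (rc a l) (r a s l) with hr'
  set d : ℕ → ℕ → ℝ := fun a s => ∑ l : Fin 3, |r a s l - r' a s l| with hd
  have hd0 : ∀ a s, 0 ≤ d a s := fun a s => sum_nonneg fun _ _ => abs_nonneg _
  have h1 : ∑ a ∈ Finset.range m, ∑ s ∈ Finset.range 2, ∑ l : Fin 3, pen R κ δ (rc a l) (r a s l) =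
      ∑ a ∈ Finset.range m, ∑ s ∈ Finset.range 2, ∑ l : Fin 3, pen R κ δ (rc a l) (r' a s l) +
      2 * R * ∑ a ∈ Finset.range m, ∑ s ∈ Finset.range 2, d a s := by
    rw [mul_sum, ← sum_add_distrib]
    refine sum_congr rfl fun a _ => ?_
    rw [mul_sum, ← sum_add_distrib]
    refine sum_congr rfl fun s _ => ?_
    simp only [hd]
    rw [mul_sum, ← sum_add_distrib]
    refine sum_congr rfl fun l _ => ?_
    exact pen_prj hR hκ _ _
  have h2 : ∑ a ∈ Finset.range m, ∑ b ∈ Finset.range n, ∑ s ∈ Finset.range 2, ∑ t ∈ Finset.range 2,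
      |cen (kd a b) s t - dot (r' a s) (w b t)| ≤
      ∑ a ∈ Finset.range m, ∑ b ∈ Finset.range n, ∑ s ∈ Finset.range 2, ∑ t ∈ Finset.range 2,
      |cen (kd a b) s t - dot (r a s) (w b t)| +
      ∑ a ∈ Finset.range m, ∑ b ∈ Finset.range n, ∑ s ∈ Finset.range 2, ∑ t ∈ Finset.range 2,
        d a s * ∑ l : Fin 3, |w b t l| := by
    simp only [← sum_add_distrib]
    refine sum_le_sum fun a _ => sum_le_sum fun b _ => sum_le_sum fun s _ => sum_le_sum fun t _ => ?_
    have e1 := dot_l1 (fun l => r a s l - r' a s l) (w b t)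
    rw [← dot_sub] at e1
    have e2 : cen (kd a b) s t - dot (r' a s) (w b t) = (cen (kd a b) s t - dot (r a s) (w b t)) +
        (dot (r a s) (w b t) - dot (r' a s) (w b t)) := by ring
    rw [e2]
    exact (abs_add_le _ _).trans (add_le_add le_rfl e1)
  have h3 : ∑ a ∈ Finset.range m, ∑ b ∈ Finset.range n, ∑ s ∈ Finset.range 2, ∑ t ∈ Finset.range 2,
        d a s * ∑ l : Fin 3, |w b t l| =
      (∑ a ∈ Finset.range m, ∑ s ∈ Finset.range 2, d a s) *
        ∑ b ∈ Finset.range n, ∑ t ∈ Finset.range 2, ∑ l : Fin 3, |w b t l| := by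
    rw [sum_mul]
    refine sum_congr rfl fun a _ => ?_
    rw [mul_sum]
    refine sum_congr rfl fun b _ => ?_
    rw [sum_mul]
    refine sum_congr rfl fun s _ => ?_
    rw [mul_sum]
  have h4 : (∑ a ∈ Finset.range m, ∑ s ∈ Finset.range 2, d a s) *
        ∑ b ∈ Finset.range n, ∑ t ∈ Finset.range 2, ∑ l : Fin 3, |w b t l| ≤
      (∑ a ∈ Finset.range m, ∑ s ∈ Finset.range 2, d a s) * (2 * R) :=
    mul_le_mul_of_nonneg_left hw (sum_nonneg fun a _ => sum_nonneg fun s _ => hd0 a s)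
  unfold costV
  rw [h1]
  rw [h3] at h2
  linarith

theorem e2 : S_E2 := by
  intro m n R κ δ rc cc kd r w hR hκ hκ' hδ hδ' hw
  have hμ : (1 : ℝ) ≤ (m : ℝ) + n + 1 := by
    have : (0 : ℝ) ≤ m := Nat.cast_nonneg m
    have : (0 : ℝ) ≤ n := Nat.cast_nonneg n
    linarith
  have hm0 : (0 : ℝ) ≤ m := Nat.cast_nonneg m
  have hn0 : (0 : ℝ) ≤ n := Nat.cast_nonneg n
  have hR2 : 50 * ((m : ℝ) + n + 1) ≤ R := by
    refine le_trans ?_ hR
    nlinarith
  have hR0 : 0 ≤ R := by linarith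
  refine ⟨fun a s l => prj κ δ (rc a l) (r a s l), fun b t l => prj κ δ (cc b l) (w b t l), ?_, ?_, ?_⟩
  · intro a _ s _ l
    exact prj_box hκ _ _
  · intro a _ s _ l
    exact prj_box hκ _ _
  · refine le_trans ?_ (rows_proj m n R κ δ rc cc kd r w hR0 hκ (hw.trans (by linarith)))
    rw [cost_swap, cost_swap m n R κ δ rc cc kd _ w]
    apply rows_proj n m R κ δ cc rc _ w _ hR0 hκ
    have h1 : ∀ a ∈ Finset.range m, ∀ s ∈ Finset.range 2, ∀ l ∈ (Finset.univ : Finset (Fin 3)),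
        |prj κ δ (rc a l) (r a s l)| ≤ 1 := by
      intro a _ s _ l _
      exact box_le hκ hκ' hδ hδ' (prj_box hκ _ _)
    calc ∑ a ∈ Finset.range m, ∑ s ∈ Finset.range 2, ∑ l : Fin 3, |prj κ δ (rc a l) (r a s l)|
        ≤ ∑ a ∈ Finset.range m, ∑ s ∈ Finset.range 2, ∑ l : Fin 3, (1 : ℝ) :=
          sum_le_sum fun a ha => sum_le_sum fun s hs => sum_le_sum fun l hl => h1 a ha s hs l hl
      _ = 6 * m := by
          simp
          ring
      _ ≤ 2 * R := by linarith

end Pool.Agent.Q63.LR
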