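import Pool.Agent.Q230.LR.St

/-!
# Project LR, jobs E3 and E2: the cost in the boxes
-/

set_option autoImplicit false

namespace Pool.Agent.Q63.LR

open Finset Pool.Agent.Q230.LR

theorem len_filter_range (n : ℕ) (p : ℕ → Bool) :
    ((List.range n).filter p).length = ∑ b ∈ Finset.range n, if p b = true then 1 else 0 := by
  induction n with
  | zero => simp
  | succ n ih =>
    rw [List.range_succ, List.filter_append, List.length_append, ih, Finset.sum_range_succ]
    congr 1
    by_cases h : p n = true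
    · simp [h]
    · simp [h]

theorem len_flat (m n : ℕ) (p : ℕ → ℕ → Bool) :
    ((List.range m).flatMap fun a => (List.range n).filter (p a)).length =
      ∑ a ∈ Finset.range m, ∑ b ∈ Finset.range n, if p a b = true then 1 else 0 := by
  induction m with
  | zero => simp
  | succ m ih =>
    rw [List.range_succ, List.flatMap_append, List.length_append, ih, Finset.sum_range_succ]
    congr 1
    simp [len_filter_range]

theorem nun_eq (m : ℕ) (rc : ℕ → ℕ → ℕ) :
    (nun m rc : ℝ) = ∑ a ∈ Finset.range m, ∑ l : Fin 3, if rc a l = 0 then (1 : ℝ) else 0 := by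
  unfold nun
  rw [len_flat]
  push_cast
  refine sum_congr rfl fun a _ => ?_
  rw [Finset.sum_range]
  refine sum_congr rfl fun l _ => ?_
  simp

theorem nng_eq (m n : ℕ) (kd : ℕ → ℕ → ℕ) :
    (nng m n kd : ℝ) = ∑ a ∈ Finset.range m, ∑ b ∈ Finset.range n, if kd a b = 0 then (0 : ℝ) else 1 := by
  unfold nng
  rw [len_flat]
  push_cast
  refine sum_congr rfl fun a _ => ?_
  refine sum_congr rfl fun b _ => ?_
  by_cases h : kd a b = 0 <;> simp [h]

theorem spv_le {κ δ : ℝ} (hκ : 0 ≤ κ) (hκ' : κ ≤ 1 / 8) (hδ : 0 ≤ δ) (hδ' : δ ≤ 1) (c : ℕ) :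
    |spv κ δ c| ≤ 1 := by
  unfold spv
  split_ifs <;> rw [abs_le] <;> constructor <;> linarith

theorem box_le {κ δ : ℝ} (hκ : 0 ≤ κ) (hκ' : κ ≤ 1 / 8) (hδ : 0 ≤ δ) (hδ' : δ ≤ 1) {c : ℕ} {x : ℝ}
    (h : InBox κ δ κ c x) : |x| ≤ 1 := by
  unfold InBox at h
  split_ifs at h
  · linarith
  · rw [h]
    exact spv_le hκ hκ' hδ hδ' c

theorem pen_box {R κ δ : ℝ} (hR : 0 ≤ R) {c : ℕ} {x : ℝ}
    (h : InBox κ δ κ c x) : pen R κ δ c x = 2 * R * κ * (if c = 0 then 1 else 0) := by
  unfold InBox at h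
  unfold pen
  split_ifs at h ⊢ with hc
  · rw [abs_le] at h
    have h1 : -(R * κ) - R * x ≤ 0 := by nlinarith
    have h2 : 0 ≤ R * κ - R * x := by nlinarith
    rw [abs_of_nonpos h1, abs_of_nonneg h2]
    ring
  · rw [h]
    simp

theorem dot_le {u v : Fin 3 → ℝ} (hu : ∀ l, |u l| ≤ 1) (hv : ∀ l, |v l| ≤ 1) : |dot u v| ≤ 3 := by
  unfold dot
  have h : ∀ l, |u l * v l| ≤ 1 := fun l => by
    rw [abs_mul]
    exact mul_le_one₀ (hu l) (abs_nonneg _) (hv l)
  have h0 := abs_le.1 (h 0)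
  have h1 := abs_le.1 (h 1)
  have h2 := abs_le.1 (h 2)
  rw [abs_le]
  constructor <;> linarith [h0.1, h0.2, h1.1, h1.2, h2.1, h2.2]

theorem e3 : S_E3 := by
  intro m n R κ δ rc cc kd r w hR hκ hκ' hδ hδ' hr hw
  have hr1 : ∀ a < m, ∀ s < 2, ∀ l, |r a s l| ≤ 1 := fun a ha s hs l => box_le hκ hκ' hδ hδ' (hr a ha s hs l)
  have hw1 : ∀ b < n, ∀ t < 2, ∀ l, |w b t l| ≤ 1 := fun b hb t ht l => box_le hκ hκ' hδ hδ' (hw b hb t ht l)
  have hpen : ∀ (m : ℕ) (rc : ℕ → ℕ → ℕ) (r : ℕ → ℕ → Fin 3 → ℝ),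
      (∀ a < m, ∀ s < 2, ∀ l : Fin 3, InBox κ δ κ (rc a l) (r a s l)) →
      ∑ a ∈ Finset.range m, ∑ s ∈ Finset.range 2, ∑ l : Fin 3, pen R κ δ (rc a l) (r a s l) =
        4 * R * κ * (nun m rc : ℝ) := by
    intro m rc r hr
    rw [nun_eq, mul_sum]
    refine sum_congr rfl fun a ha => ?_
    have ha' := Finset.mem_range.1 ha
    have h1 : ∀ s ∈ Finset.range 2, ∑ l : Fin 3, pen R κ δ (rc a l) (r a s l) =
        2 * R * κ * ∑ l : Fin 3, (if rc a l = 0 then (1 : ℝ) else 0) := by
      intro s hs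
      rw [mul_sum]
      exact sum_congr rfl fun l _ => pen_box hR (hr a ha' s (Finset.mem_range.1 hs) l)
    rw [sum_congr rfl h1, sum_const, card_range, nsmul_eq_mul]
    push_cast
    ring
  unfold costV Psi
  rw [hpen m rc r hr, hpen n cc w hw, nng_eq]
  have hcell : ∑ a ∈ Finset.range m, ∑ b ∈ Finset.range n, ∑ s ∈ Finset.range 2, ∑ t ∈ Finset.range 2,
      |cen (kd a b) s t - dot (r a s) (w b t)| =
      ∑ a ∈ Finset.range m, ∑ b ∈ Finset.range n, (12 * (if kd a b = 0 then (0 : ℝ) else 1) +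
        if kd a b = 0 then
          ∑ s ∈ Finset.range 2, ∑ t ∈ Finset.range 2, |dot (r a s) (w b t)|
        else if kd a b = 2 then
          ∑ s ∈ Finset.range 2, ∑ t ∈ Finset.range 2, dot (r a s) (w b t)
        else - dot (dif (r a)) (dif (w b))) := by
    refine sum_congr rfl fun a ha => sum_congr rfl fun b hb => ?_
    have ha' := Finset.mem_range.1 ha
    have hb' := Finset.mem_range.1 hb
    have hd : ∀ s < 2, ∀ t < 2, |dot (r a s) (w b t)| ≤ 3 := fun s hs t ht =>
      dot_le (hr1 a ha' s hs) (hw1 b hb' t ht)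
    have h00 := abs_le.1 (hd 0 (by norm_num) 0 (by norm_num))
    have h01 := abs_le.1 (hd 0 (by norm_num) 1 (by norm_num))
    have h10 := abs_le.1 (hd 1 (by norm_num) 0 (by norm_num))
    have h11 := abs_le.1 (hd 1 (by norm_num) 1 (by norm_num))
    by_cases h0 : kd a b = 0
    · simp only [h0, cen, if_true, zero_sub, abs_neg, mul_zero, zero_add]
    · by_cases h2 : kd a b = 2
      · simp only [h2, cen, if_true, Finset.sum_range_succ, Finset.sum_range_zero, zero_add]
        norm_num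
        rw [abs_of_nonpos (by linarith [h00.1]), abs_of_nonpos (by linarith [h01.1]),
          abs_of_nonpos (by linarith [h10.1]), abs_of_nonpos (by linarith [h11.1])]
        ring
      · simp only [cen, if_neg h0, if_neg h2, Finset.sum_range_succ, Finset.sum_range_zero, zero_add]
        norm_num
        rw [abs_of_nonneg (by linarith [h00.2]), abs_of_nonpos (by linarith [h01.1]),
          abs_of_nonpos (by linarith [h10.1]), abs_of_nonneg (by linarith [h11.2])]
        unfold dot dif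
        ring
  rw [hcell]
  simp only [sum_add_distrib, mul_sum]
  push_cast
  ring

end Pool.Agent.Q63.LR
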