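import Pool.Agent.Q230.LR.St

/-!
# Project LR (helper230): job M0
-/

set_option autoImplicit false

namespace Pool.Agent.Q63.LR

open Pool.Agent.Q230.LR Finset

theorem sum_range_blocks (a m : ℕ) (g : ℕ → ℕ) :
    ∑ i ∈ range (a * m), g i = ∑ i₀ ∈ range m, ∑ r ∈ range a, g (a * i₀ + r) := by
  induction m with
  | zero => simp
  | succ m ih => rw [Nat.mul_succ, sum_range_add, ih, sum_range_succ]

theorem nst_eq (m n : ℕ) (F : ℕ → ℕ → Option ℚ) :
    nst m n F = ∑ i ∈ range m, ∑ j ∈ range n, if (F i j).isNone = true then 1 else 0 := by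
  unfold nst
  rw [List.length_flatMap]
  have h1 : ∀ i, (((List.range n).filter fun j => (F i j).isNone).length) =
      ∑ j ∈ range n, if (F i j).isNone = true then 1 else 0 := by
    intro i
    induction n with
    | zero => simp
    | succ n ih =>
      rw [List.range_succ, List.filter_append, List.length_append, ih, sum_range_succ]
      congr 1
      by_cases h : (F i n).isNone = true
      · simp [h]
      · simp [h]
  simp only [h1]
  induction m with
  | zero => simp
  | succ m ih =>
    rw [List.range_succ, List.map_append, List.sum_append, ih, sum_range_succ]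
    simp

/-- the entry is wrong -/
noncomputable def wr (f : ℕ → ℕ → ℚ) (U V : ℕ → Fin 3 → ℝ) (i j : ℕ) : ℕ :=
  open Classical in if (f i j : ℝ) ≠ dot (U i) (V j) then 1 else 0

theorem wrong_eq (a b m n : ℕ) (f : ℕ → ℕ → ℚ) (U V : ℕ → Fin 3 → ℝ) :
    wrong (a * m) (b * n) f U V = ∑ i₀ ∈ range m, ∑ j₀ ∈ range n, ∑ r ∈ range a, ∑ c ∈ range b,
      wr f U V (a * i₀ + r) (b * j₀ + c) := by
  classical
  have h0 : wrong (a * m) (b * n) f U V = ∑ i ∈ range (a * m), ∑ j ∈ range (b * n), wr f U V i j := by
    unfold wrong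
    rw [card_filter, sum_product]
    apply sum_congr rfl
    intro i _
    apply sum_congr rfl
    intro j _
    rfl
  rw [h0, sum_range_blocks]
  apply sum_congr rfl
  intro i₀ _
  rw [sum_comm]
  rw [sum_range_blocks]
  apply sum_congr rfl
  intro j₀ _
  rw [sum_comm]

theorem m0 (h1 : S_RIG) (h2 : S_KST) : S_M0 := by
  classical
  intro m n F
  obtain ⟨s, hs⟩ : ∃ s : ℕ, s = nst m n F := ⟨_, rfl⟩
  obtain ⟨a, ha⟩ : ∃ a : ℕ, a = cp1 s := ⟨_, rfl⟩
  obtain ⟨b, hb⟩ : ∃ b : ℕ, b = cp2 s := ⟨_, rfl⟩
  have ha1 : a = 6 * s + 1 := ha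
  have hb1 : b = a ^ 5 := by
    rw [hb, ha1]
    rfl
  have ha0 : 0 < a := by omega
  have hb0 : 0 < b := by
    rw [hb1]
    positivity
  rw [← hs, ← ha, ← hb]
  obtain ⟨f, hf⟩ : ∃ f : ℕ → ℕ → ℚ, f = blow s F := ⟨_, rfl⟩
  rw [← hf]
  have hfe : ∀ i₀ j₀ r c, r < a → c < b → f (a * i₀ + r) (b * j₀ + c) =
      (F i₀ j₀).getD (1 / ((r + c + 1 : ℕ) : ℚ)) := by
    intro i₀ j₀ r c hr hc
    rw [hf]
    unfold blow
    rw [← ha, ← hb, Nat.mul_add_div ha0, Nat.div_eq_of_lt hr, Nat.mul_add_div hb0,
      Nat.div_eq_of_lt hc, Nat.mul_add_mod, Nat.mod_eq_of_lt hr, Nat.mul_add_mod,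
      Nat.mod_eq_of_lt hc, add_zero, add_zero]
  constructor
  · rintro ⟨U, V, hUV⟩
    rw [wrong_eq] at hUV
    -- the blocks of the empty cells
    have hnone : ∀ i₀ j₀, (F i₀ j₀).isNone = true →
        a * b ≤ (∑ r ∈ range a, ∑ c ∈ range b, wr f U V (a * i₀ + r) (b * j₀ + c)) + 6 * b := by
      intro i₀ j₀ h0
      obtain ⟨E, hE⟩ : ∃ E : Finset (ℕ × ℕ), E = (range a ×ˢ range b).filter
        (fun p => wr f U V (a * i₀ + p.1) (b * j₀ + p.2) = 0) := ⟨_, rfl⟩
      have hEc : E.card ≤ 3 * b + 3 * a ^ 5 := by
        apply h2 a b E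
        · rw [hE]
          exact filter_subset _ _
        · intro ρ ς hρ hς hall
          apply h1 ρ ς hρ hς (fun i => U (a * i₀ + ρ i)) (fun j => V (b * j₀ + ς j))
          intro i j
          have h3 := hall i j
          rw [hE, mem_filter, mem_product, mem_range, mem_range] at h3
          obtain ⟨⟨h4, h5⟩, h6⟩ := h3
          simp only at h4 h5 h6
          unfold wr at h6
          have h7 : (f (a * i₀ + ρ i) (b * j₀ + ς j) : ℝ) =
              dot (U (a * i₀ + ρ i)) (V (b * j₀ + ς j)) := by
            by_contra h8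
            rw [if_pos h8] at h6
            exact one_ne_zero h6
          rw [← h7, hfe i₀ j₀ _ _ h4 h5, Option.isNone_iff_eq_none.1 h0, Option.getD_none]
          push_cast
          ring
      have hsum : E.card + ∑ r ∈ range a, ∑ c ∈ range b, wr f U V (a * i₀ + r) (b * j₀ + c) =
          a * b := by
        rw [hE, card_filter, sum_product, ← sum_add_distrib]
        have h3 : ∀ r ∈ range a, (∑ c ∈ range b,
            (if wr f U V (a * i₀ + (r, c).1) (b * j₀ + (r, c).2) = 0 then 1 else 0)) +
            ∑ c ∈ range b, wr f U V (a * i₀ + r) (b * j₀ + c) = b := by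
          intro r _
          rw [← sum_add_distrib]
          have h4 : ∀ c ∈ range b,
              (if wr f U V (a * i₀ + (r, c).1) (b * j₀ + (r, c).2) = 0 then 1 else 0) +
              wr f U V (a * i₀ + r) (b * j₀ + c) = 1 := by
            intro c _
            simp only
            unfold wr
            split_ifs <;> simp_all
          rw [sum_congr rfl h4, sum_const, card_range, smul_eq_mul, mul_one]
        rw [sum_congr rfl h3, sum_const, card_range, smul_eq_mul]
      rw [← hb1] at hEc
      omega
    -- the full cells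
    have hfull : ∑ i₀ ∈ range m, ∑ j₀ ∈ range n, (if (F i₀ j₀).isNone = true then 0 else
        ∑ r ∈ range a, ∑ c ∈ range b, wr f U V (a * i₀ + r) (b * j₀ + c)) < a * b := by
      have h3 : s * (a * b) ≤ (∑ i₀ ∈ range m, ∑ j₀ ∈ range n,
          (if (F i₀ j₀).isNone = true then
          ∑ r ∈ range a, ∑ c ∈ range b, wr f U V (a * i₀ + r) (b * j₀ + c) else 0)) +
          s * (6 * b) := by
        have hs2 : s = ∑ i ∈ range m, ∑ j ∈ range n, if (F i j).isNone = true then 1 else 0 := by
          rw [hs, nst_eq]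
        have e1 : s * (a * b) = ∑ i ∈ range m, ∑ j ∈ range n,
            if (F i j).isNone = true then a * b else 0 := by
          conv_lhs => rw [hs2]
          rw [sum_mul]
          apply sum_congr rfl
          intro i _
          rw [sum_mul]
          apply sum_congr rfl
          intro j _
          split_ifs <;> simp
        have e2 : s * (6 * b) = ∑ i ∈ range m, ∑ j ∈ range n,
            if (F i j).isNone = true then 6 * b else 0 := by
          conv_lhs => rw [hs2]
          rw [sum_mul]
          apply sum_congr rfl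
          intro i _
          rw [sum_mul]
          apply sum_congr rfl
          intro j _
          split_ifs <;> simp
        rw [e1, e2, ← sum_add_distrib]
        apply sum_le_sum
        intro i₀ _
        rw [← sum_add_distrib]
        apply sum_le_sum
        intro j₀ _
        split_ifs with h
        · exact hnone i₀ j₀ h
        · exact le_rfl
      have h4 : (∑ i₀ ∈ range m, ∑ j₀ ∈ range n,
          (if (F i₀ j₀).isNone = true then
          ∑ r ∈ range a, ∑ c ∈ range b, wr f U V (a * i₀ + r) (b * j₀ + c) else 0)) +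
          (∑ i₀ ∈ range m, ∑ j₀ ∈ range n, (if (F i₀ j₀).isNone = true then 0 else
          ∑ r ∈ range a, ∑ c ∈ range b, wr f U V (a * i₀ + r) (b * j₀ + c))) =
          ∑ i₀ ∈ range m, ∑ j₀ ∈ range n, ∑ r ∈ range a, ∑ c ∈ range b,
            wr f U V (a * i₀ + r) (b * j₀ + c) := by
        rw [← sum_add_distrib]
        apply sum_congr rfl
        intro i₀ _
        rw [← sum_add_distrib]
        apply sum_congr rfl
        intro j₀ _
        split_ifs <;> simp
      have h5 : s * (6 * b) < a * b := by
        rw [← mul_assoc, mul_comm s 6]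
        apply Nat.mul_lt_mul_of_pos_right _ hb0
        omega
      omega
    have hex : ∃ r < a, ∃ c < b, ∀ i₀ < m, ∀ j₀ < n, ¬ (F i₀ j₀).isNone = true →
        wr f U V (a * i₀ + r) (b * j₀ + c) = 0 := by
      by_contra hcon
      push Not at hcon
      have h3 : a * b ≤ ∑ r ∈ range a, ∑ c ∈ range b, ∑ i₀ ∈ range m, ∑ j₀ ∈ range n,
          (if (F i₀ j₀).isNone = true then 0 else wr f U V (a * i₀ + r) (b * j₀ + c)) := by
        have e1 : a * b = ∑ _r ∈ range a, ∑ _c ∈ range b, 1 := by simp
        rw [e1]
        apply sum_le_sum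
        intro r hr
        apply sum_le_sum
        intro c hc
        obtain ⟨i₀, hi, j₀, hj, hF, hw⟩ := hcon r (mem_range.1 hr) c (mem_range.1 hc)
        have h4 : (if (F i₀ j₀).isNone = true then 0 else wr f U V (a * i₀ + r) (b * j₀ + c)) ≤
            ∑ j₀ ∈ range n,
            (if (F i₀ j₀).isNone = true then 0 else wr f U V (a * i₀ + r) (b * j₀ + c)) :=
          single_le_sum (f := fun j₀ => (if (F i₀ j₀).isNone = true then 0 else
            wr f U V (a * i₀ + r) (b * j₀ + c))) (fun _ _ => Nat.zero_le _) (mem_range.2 hj)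
        have h5 : ∑ j₀ ∈ range n,
            (if (F i₀ j₀).isNone = true then 0 else wr f U V (a * i₀ + r) (b * j₀ + c)) ≤
            ∑ i₀ ∈ range m, ∑ j₀ ∈ range n,
            (if (F i₀ j₀).isNone = true then 0 else wr f U V (a * i₀ + r) (b * j₀ + c)) :=
          single_le_sum (f := fun i₀ => ∑ j₀ ∈ range n, (if (F i₀ j₀).isNone = true then 0 else
            wr f U V (a * i₀ + r) (b * j₀ + c))) (fun _ _ => Nat.zero_le _) (mem_range.2 hi)
        rw [if_neg (by simpa using hF)] at h4
        have h6 : 1 ≤ wr f U V (a * i₀ + r) (b * j₀ + c) := Nat.one_le_iff_ne_zero.2 hw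
        omega
      have h7 : ∑ r ∈ range a, ∑ c ∈ range b, ∑ i₀ ∈ range m, ∑ j₀ ∈ range n,
          (if (F i₀ j₀).isNone = true then 0 else wr f U V (a * i₀ + r) (b * j₀ + c)) =
          ∑ i₀ ∈ range m, ∑ j₀ ∈ range n, (if (F i₀ j₀).isNone = true then 0 else
          ∑ r ∈ range a, ∑ c ∈ range b, wr f U V (a * i₀ + r) (b * j₀ + c)) := by
        have e1 : ∀ i₀ j₀, (if (F i₀ j₀).isNone = true then 0 else
            ∑ r ∈ range a, ∑ c ∈ range b, wr f U V (a * i₀ + r) (b * j₀ + c)) =
            ∑ r ∈ range a, ∑ c ∈ range b, (if (F i₀ j₀).isNone = true then 0 else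
              wr f U V (a * i₀ + r) (b * j₀ + c)) := by
          intro i₀ j₀
          split_ifs <;> simp
        simp only [e1]
        calc _ = ∑ r ∈ range a, ∑ i₀ ∈ range m, ∑ j₀ ∈ range n, ∑ c ∈ range b,
              (if (F i₀ j₀).isNone = true then 0 else wr f U V (a * i₀ + r) (b * j₀ + c)) := by
              apply sum_congr rfl
              intro r _
              rw [sum_comm]
              apply sum_congr rfl
              intro i₀ _
              rw [sum_comm]
          _ = _ := by
              rw [sum_comm]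
              apply sum_congr rfl
              intro i₀ _
              rw [sum_comm]
      omega
    obtain ⟨r, hr, c, hc, hrc⟩ := hex
    refine ⟨fun i => U (a * i + r), fun j => V (b * j + c), fun i hi j hj q hq => ?_⟩
    have h3 := hrc i hi j hj (by rw [hq]; simp)
    unfold wr at h3
    have h7 : (f (a * i + r) (b * j + c) : ℝ) = dot (U (a * i + r)) (V (b * j + c)) := by
      by_contra h8
      rw [if_pos h8] at h3
      exact one_ne_zero h3
    rw [← h7, hfe i j r c hr hc, hq, Option.getD_some]
  · rintro ⟨U, V, hUV⟩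
    refine ⟨fun i => U (i / a), fun j => V (j / b), ?_⟩
    rw [wrong_eq]
    have hs2 : s = ∑ i ∈ range m, ∑ j ∈ range n, if (F i j).isNone = true then 1 else 0 := by
      rw [hs, nst_eq]
    have e1 : s * (a * b) = ∑ i ∈ range m, ∑ j ∈ range n,
        if (F i j).isNone = true then a * b else 0 := by
      conv_lhs => rw [hs2]
      rw [sum_mul]
      apply sum_congr rfl
      intro i _
      rw [sum_mul]
      apply sum_congr rfl
      intro j _
      split_ifs <;> simp
    rw [e1]
    apply sum_le_sum
    intro i₀ hi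
    apply sum_le_sum
    intro j₀ hj
    split_ifs with h
    · calc ∑ r ∈ range a, ∑ c ∈ range b, wr f (fun i => U (i / a)) (fun j => V (j / b))
            (a * i₀ + r) (b * j₀ + c) ≤ ∑ _r ∈ range a, ∑ _c ∈ range b, 1 := by
            apply sum_le_sum
            intro r _
            apply sum_le_sum
            intro c _
            unfold wr
            split_ifs <;> simp
        _ = a * b := by simp
    · rw [Nat.le_zero, sum_eq_zero_iff]
      intro r hr
      rw [sum_eq_zero_iff]
      intro c hc
      unfold wr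
      rw [if_neg]
      rw [not_not]
      obtain ⟨q, hq⟩ : ∃ q, F i₀ j₀ = some q :=
        Option.ne_none_iff_exists'.1 (fun h' => h (by rw [h']; rfl))
      have hr' := mem_range.1 hr
      have hc' := mem_range.1 hc
      rw [hfe i₀ j₀ r c hr' hc', hq, Option.getD_some]
      simp only
      rw [Nat.mul_add_div ha0, Nat.div_eq_of_lt hr', Nat.mul_add_div hb0, Nat.div_eq_of_lt hc',
        add_zero, add_zero]
      exact hUV i₀ (mem_range.1 hi) j₀ (mem_range.1 hj) q hq

end Pool.Agent.Q63.LR
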