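import Pool.Agent.Q230.LR.St

/-!
# Project LR (helper230): jobs RIG and KST
-/

set_option autoImplicit false

namespace Pool.Agent.Q63.LR

open Pool.Agent.Q230.LR Finset

theorem dep (V : Fin 4 → Fin 3 → ℝ) : ∃ a : Fin 4 → ℝ, a ≠ 0 ∧ ∀ l, ∑ j, a j * V j l = 0 := by
  obtain ⟨f, hf⟩ : ∃ f : (Fin 4 → ℝ) →ₗ[ℝ] (Fin 3 → ℝ), ∀ a l, f a l = ∑ j, a j * V j l := by
    refine ⟨{ toFun := fun a l => ∑ j, a j * V j l, map_add' := ?_, map_smul' := ?_ },
      fun a l => rfl⟩
    · intro a b
      funext l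
      rw [Pi.add_apply, ← sum_add_distrib]
      apply sum_congr rfl
      intro j _
      rw [Pi.add_apply]
      ring
    · intro c a
      funext l
      rw [Pi.smul_apply, smul_eq_mul, mul_sum]
      apply sum_congr rfl
      intro j _
      rw [Pi.smul_apply, smul_eq_mul, RingHom.id_apply]
      ring
  have h1 : f.ker ≠ ⊥ := LinearMap.ker_ne_bot_of_finrank_lt (by simp)
  obtain ⟨a, ha, ha0⟩ := (Submodule.ne_bot_iff _).1 h1
  refine ⟨a, ha0, fun l => ?_⟩
  rw [← hf, LinearMap.mem_ker.1 ha]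
  rfl

theorem dot_sum (U : Fin 3 → ℝ) (V : Fin 4 → Fin 3 → ℝ) (a : Fin 4 → ℝ)
    (h : ∀ l, ∑ j, a j * V j l = 0) : ∑ j, a j * dot U (V j) = 0 := by
  have h0 := h 0
  have h1 := h 1
  have h2 := h 2
  have : ∑ j, a j * dot U (V j) = U 0 * ∑ j, a j * V j 0 + U 1 * ∑ j, a j * V j 1 +
      U 2 * ∑ j, a j * V j 2 := by
    rw [mul_sum, mul_sum, mul_sum, ← sum_add_distrib, ← sum_add_distrib]
    apply sum_congr rfl
    intro j _
    unfold dot
    ring
  rw [this, h0, h1, h2]
  ring

theorem rig : S_RIG := by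
  intro ρ ς hρ hς U V h
  obtain ⟨a, ha0, ha⟩ := dep V
  have h1 : ∀ i, ∑ j, a j * (1 / ((ρ i + ς j + 1 : ℕ) : ℝ)) = 0 := by
    intro i
    rw [← dot_sum (U i) V a ha]
    apply sum_congr rfl
    intro j _
    rw [h i j]
  obtain ⟨P, hP⟩ : ∃ P : Polynomial ℝ, P = ∑ j, Polynomial.C (a j) *
      ∏ j' ∈ univ.erase j, (Polynomial.X + Polynomial.C ((ς j' : ℝ) + 1)) := ⟨_, rfl⟩
  have hev : ∀ x : ℝ, P.eval x = ∑ j, a j * ∏ j' ∈ univ.erase j, (x + ((ς j' : ℝ) + 1)) := by
    intro x
    rw [hP, Polynomial.eval_finsetSum]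
    apply sum_congr rfl
    intro j _
    rw [Polynomial.eval_mul, Polynomial.eval_C, Polynomial.eval_prod]
    congr 1
    apply prod_congr rfl
    intro j' _
    simp
  have hdeg : P.natDegree < Fintype.card (Fin 4) := by
    rw [hP, Fintype.card_fin]
    apply Nat.lt_of_le_of_lt (m := 3) _ (by norm_num)
    apply Polynomial.natDegree_sum_le_of_forall_le
    intro j _
    refine (Polynomial.natDegree_C_mul_le _ _).trans ?_
    refine (Polynomial.natDegree_prod_le _ _).trans ?_
    calc ∑ j' ∈ univ.erase j, (Polynomial.X + Polynomial.C ((ς j' : ℝ) + 1)).natDegree ≤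
          ∑ _j' ∈ (univ : Finset (Fin 4)).erase j, 1 := by
          apply sum_le_sum
          intro j' _
          rw [Polynomial.natDegree_X_add_C]
      _ = 3 := by
          rw [sum_const, card_erase_of_mem (mem_univ _)]
          simp
  have hP0 : P = 0 := by
    apply Polynomial.eq_zero_of_natDegree_lt_card_of_eval_eq_zero P (f := fun i => (ρ i : ℝ))
    · intro i j hij
      simp only at hij
      exact hρ (by exact_mod_cast hij)
    · intro i
      rw [hev]
      have h2 : ∀ j, ∏ j' ∈ univ.erase j, ((ρ i : ℝ) + ((ς j' : ℝ) + 1)) =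
          (∏ j', ((ρ i : ℝ) + ((ς j' : ℝ) + 1))) * (1 / ((ρ i + ς j + 1 : ℕ) : ℝ)) := by
        intro j
        rw [← mul_prod_erase univ (fun j' => (ρ i : ℝ) + ((ς j' : ℝ) + 1)) (mem_univ j)]
        push_cast
        have : (ρ i : ℝ) + ((ς j : ℝ) + 1) ≠ 0 := by positivity
        have h3 : (ρ i : ℝ) + ς j + 1 = (ρ i : ℝ) + ((ς j : ℝ) + 1) := by ring
        rw [h3]
        field_simp
      calc ∑ j, a j * ∏ j' ∈ univ.erase j, ((ρ i : ℝ) + ((ς j' : ℝ) + 1)) =
            (∏ j', ((ρ i : ℝ) + ((ς j' : ℝ) + 1))) *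
              ∑ j, a j * (1 / ((ρ i + ς j + 1 : ℕ) : ℝ)) := by
            rw [mul_sum]
            apply sum_congr rfl
            intro j _
            rw [h2]
            ring
        _ = 0 := by rw [h1, mul_zero]
    · exact hdeg
  apply ha0
  funext j
  have h2 := hev (-((ς j : ℝ) + 1))
  rw [hP0, Polynomial.eval_zero, sum_eq_single j] at h2
  · rcases mul_eq_zero.1 h2.symm with h3 | h3
    · exact h3
    · exfalso
      rw [prod_eq_zero_iff] at h3
      obtain ⟨j', hj', h4⟩ := h3
      have h5 : (ς j' : ℝ) = ς j := by linarith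
      exact (mem_erase.1 hj').1 (hς (by exact_mod_cast h5))
  · intro j' _ hj'
    rw [prod_eq_zero (mem_erase.2 ⟨hj'.symm, mem_univ j⟩), mul_zero]
    ring
  · intro h3
    exact absurd (mem_univ _) h3

theorem kst : S_KST := by
  intro a b E hE hK
  obtain ⟨D, hD⟩ : ∃ D : ℕ → Finset ℕ, ∀ c, D c = (range a).filter (fun r => (r, c) ∈ E) :=
    ⟨fun c => (range a).filter (fun r => (r, c) ∈ E), fun c => rfl⟩
  have hcard : E.card = ∑ c ∈ range b, (D c).card := by
    have h1 : E.card = ∑ c ∈ range b, (E.filter (fun p => p.2 = c)).card := by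
      apply card_eq_sum_card_fiberwise
      intro p hp
      exact (mem_product.1 (hE hp)).2
    rw [h1]
    apply sum_congr rfl
    intro c _
    apply card_bij (fun p _ => p.1)
    · intro p hp
      rw [mem_filter] at hp
      rw [hD, mem_filter]
      refine ⟨(mem_product.1 (hE hp.1)).1, ?_⟩
      rw [← hp.2]
      exact hp.1
    · intro p hp q hq hpq
      rw [mem_filter] at hp hq
      exact Prod.ext hpq (hp.2.trans hq.2.symm)
    · intro r hr
      rw [hD, mem_filter] at hr
      exact ⟨(r, c), mem_filter.2 ⟨hr.2, rfl⟩, rfl⟩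
  obtain ⟨Big, hBig⟩ : ∃ Big : Finset ℕ, Big = (range b).filter (fun c => 4 ≤ (D c).card) := ⟨_, rfl⟩
  have hch : ∀ c, ∃ Q : Finset ℕ, 4 ≤ (D c).card → Q ⊆ D c ∧ Q.card = 4 := by
    intro c
    by_cases h : 4 ≤ (D c).card
    · obtain ⟨Q, h1, h2⟩ := exists_subset_card_eq h
      exact ⟨Q, fun _ => ⟨h1, h2⟩⟩
    · exact ⟨∅, fun h' => absurd h' h⟩
  choose Q hQ using hch
  have hBc : Big.card ≤ 3 * (powersetCard 4 (range a)).card := by
    apply card_le_mul_card_image_of_maps_to (f := Q)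
    · intro c hc
      rw [hBig, mem_filter] at hc
      rw [mem_powersetCard]
      refine ⟨(hQ c hc.2).1.trans ?_, (hQ c hc.2).2⟩
      rw [hD]
      exact filter_subset _ _
    · intro S hS
      by_contra hcon
      rw [not_le] at hcon
      obtain ⟨W, hW1, hW2⟩ := exists_subset_card_eq (n := 4) (s := Big.filter (fun c => Q c = S))
        (by omega)
      obtain ⟨hS1, hS2⟩ := mem_powersetCard.1 hS
      apply hK (fun i => S.orderEmbOfFin hS2 i) (fun j => W.orderEmbOfFin hW2 j)
      · exact (S.orderEmbOfFin hS2).injective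
      · exact (W.orderEmbOfFin hW2).injective
      · intro i j
        have h1 : S.orderEmbOfFin hS2 i ∈ S := orderEmbOfFin_mem S hS2 i
        have h2 : W.orderEmbOfFin hW2 j ∈ W := orderEmbOfFin_mem W hW2 j
        have h3 := mem_filter.1 (hW1 h2)
        have h4 := h3.1
        rw [hBig, mem_filter] at h4
        have h5 := (hQ _ h4.2).1
        rw [h3.2] at h5
        have h6 := h5 h1
        rw [hD, mem_filter] at h6
        exact h6.2
  rw [card_powersetCard, card_range] at hBc
  have hBc2 : Big.card ≤ 3 * a ^ 4 := hBc.trans (Nat.mul_le_mul_left 3 (Nat.choose_le_pow a 4))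
  have hterm : ∀ c ∈ range b, (D c).card ≤ 3 + (if 4 ≤ (D c).card then a else 0) := by
    intro c _
    split_ifs with h
    · have : (D c).card ≤ a := by
        rw [hD]
        exact (card_filter_le _ _).trans (by rw [card_range])
      omega
    · omega
  calc E.card = ∑ c ∈ range b, (D c).card := hcard
    _ ≤ ∑ c ∈ range b, (3 + (if 4 ≤ (D c).card then a else 0)) := sum_le_sum hterm
    _ = 3 * b + Big.card * a := by
        rw [sum_add_distrib, ← sum_filter, ← hBig, sum_const, sum_const, card_range, smul_eq_mul,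
          smul_eq_mul, mul_comm b 3]
    _ ≤ 3 * b + (3 * a ^ 4) * a := Nat.add_le_add_left (Nat.mul_le_mul_right a hBc2) _
    _ = 3 * b + 3 * a ^ 5 := by ring

end Pool.Agent.Q63.LR
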